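import Pool.Agent.H176RD.Main

set_option autoImplicit false

/-! MP_460e77_co: let `H`, `K` be abelian groups of order `p^r`, `p` odd, and `f : H → K` a planar
function. If `H` and `K` are not both elementary abelian, then `H × K` has exponent `p^e` with
`e ≥ 2`, the subgroup `p^(e-1) (H × K)` has order at least `p^2`, and at least `p^3` if `p ≥ 5`,
and in the latter case `r ≥ 4`. In particular the problem is settled for `r = 3`, `p ≥ 5`. -/

namespace Pool.Agent.Results.MP_460e77_co.PrimeCube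

theorem result : ∀ (p r : ℕ), p.Prime → Odd p → 1 ≤ r →
    ∀ (H K : Type) [AddCommGroup H] [Fintype H] [AddCommGroup K] [Fintype K],
    Fintype.card H = p ^ r → Fintype.card K = p ^ r → ∀ f : H → K,
    (∀ h : H, h ≠ 0 → Function.Bijective (fun x => f (h + x) - f x)) →
    ((∀ h : H, p • h = 0) ∧ (∀ k : K, p • k = 0)) ∨ ∃ e : ℕ, 2 ≤ e ∧
      AddMonoid.exponent (H × K) = p ^ e ∧
      p ^ 2 ≤ Nat.card (nsmulAddMonoidHom (p ^ (e - 1)) : H × K →+ H × K).range ∧
      (5 ≤ p → p ^ 3 ≤ Nat.card (nsmulAddMonoidHom (p ^ (e - 1)) : H × K →+ H × K).range ∧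
        4 ≤ r) := by
  intro p r hp ho hr H K _ _ _ _ hH hK f hf
  obtain ⟨hA, hB⟩ := Pool.Agent.H176RD.mT2 p r hp ho hr H K hH hK f hf
  rcases hA with h | ⟨e, he, hex, h2, h3⟩
  · exact Or.inl h
  · by_cases h5 : 5 ≤ p
    · by_cases h4 : r ≤ 3
      · exact Or.inl (hB h5 h4)
      · exact Or.inr ⟨e, he, hex, h2, fun _ => ⟨h3 h5, by omega⟩⟩
    · exact Or.inr ⟨e, he, hex, h2, fun h => absurd h h5⟩

end Pool.Agent.Results.MP_460e77_co.PrimeCube
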